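import Mathlib
import Pool.Agent.R236.SemiCoverB

/-!
# Every integer `n ≥ 2` is the covering number of a semigroup

For every `n ≥ 2` there is a (necessarily infinite and not finitely generated when `n` is not the
covering number of a group) semigroup `S` which is a union of `n` proper subsemigroups but not of
fewer than `n`. In particular `n = 7` and `n = 11`, which are known not to be covering numbers of
groups, occur.

Construction: code words `i^(n+1) j^(m+1) i j^(n+2)` over an `n`-letter alphabet form a comma-free
code in which every two letters `i ≠ j` can encode all `n` letters `m`. Iterating the code gives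
letters of level `0, 1, 2, ...`; any two letters of level `k + 1` generate all letters of level
`k`. The semigroup consists of the partial maps on the states of the reading automata of all
levels.
-/

namespace Pool.Agent.Results.MP_2bfc8a_al.EveryCoveringNumber

/-- `S` is the union of `k` proper nonempty subsemigroups. -/
def HasCover (S : Type) [Semigroup S] (k : ℕ) : Prop :=
  ∃ U : Fin k → Subsemigroup S,
    (∀ i, (U i : Set S).Nonempty) ∧ (∀ i, U i ≠ ⊤) ∧ ∀ x : S, ∃ i, x ∈ U i

/-- The semigroup covering number of `S` is the natural number `m`: `S` is the union of `m`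
proper nonempty subsemigroups, and not of fewer. -/
def HasCoveringNumber (S : Type) [Semigroup S] (m : ℕ) : Prop :=
  IsLeast {k : ℕ | HasCover S k} m

/-- Every integer `n ≥ 2` is the semigroup covering number of some semigroup. -/
theorem result (n : ℕ) (hn : 2 ≤ n) :
    ∃ (S : Type) (_ : Semigroup S), HasCoveringNumber S n := by
  refine ⟨Pool.Agent.R236.SemiCover.SS n, inferInstance, ?_, ?_⟩
  · refine ⟨fun c => Pool.Agent.R236.SemiCover.Uc c, ?_, ?_, ?_⟩
    · intro c
      exact ⟨⟨Pool.Agent.R236.SemiCover.G 0 c, Pool.Agent.R236.SemiCover.g_mem 0 c⟩,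
        Pool.Agent.R236.SemiCover.g_zero_pres c⟩
    · intro c hc
      obtain ⟨l, hl⟩ : ∃ l : Fin n, l ≠ c := by
        have : Nontrivial (Fin n) := Fin.nontrivial_iff_two_le.mpr hn
        exact exists_ne c
      have h1 : (⟨Pool.Agent.R236.SemiCover.G 0 l, Pool.Agent.R236.SemiCover.g_mem 0 l⟩ :
          Pool.Agent.R236.SemiCover.SS n) ∈ Pool.Agent.R236.SemiCover.Uc c := by
        have h0 : Pool.Agent.R236.SemiCover.Uc c = ⊤ := hc
        rw [h0]; trivial
      exact Pool.Agent.R236.SemiCover.g_zero_not_pres hl h1
    · rintro ⟨x, hx⟩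
      obtain ⟨k, u, hu, rfl⟩ := Pool.Agent.R236.SemiCover.SS_form hn hx
      obtain ⟨c, hc⟩ := Pool.Agent.R236.SemiCover.pres_exists k u hu
      exact ⟨c, hc⟩
  · rintro m ⟨U, -, hU, hcov⟩
    by_contra hm
    push Not at hm
    obtain ⟨a, ha⟩ := Pool.Agent.R236.SemiCover.lower hn hm U hcov
    exact hU a ha

end Pool.Agent.Results.MP_2bfc8a_al.EveryCoveringNumber
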